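import Pool.Agent.H365.TF.Stm

/-!
# Coprime action on a finite vector space
-/

set_option autoImplicit false

namespace Pool.Agent.H365.TF

namespace COPN

variable {ℓ : ℕ} [Fact ℓ.Prime] {X : Type} [AddCommGroup X] [Module (ZMod ℓ) X]
  {P : Type} [Group P]

/-- composition with `g - 1` on the dual space -/
noncomputable def T (g : Module.End (ZMod ℓ) X) :
    (X →ₗ[ZMod ℓ] ZMod ℓ) →ₗ[ZMod ℓ] (X →ₗ[ZMod ℓ] ZMod ℓ) where
  toFun μ := μ ∘ₗ (g - 1)
  map_add' _ _ := LinearMap.add_comp _ _ _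
  map_smul' _ _ := LinearMap.smul_comp _ _ _

theorem T_apply (g : Module.End (ZMod ℓ) X) (μ : X →ₗ[ZMod ℓ] ZMod ℓ) (x : X) :
    T g μ x = μ (g x) - μ x := by
  change μ ((g - 1) x) = _
  rw [LinearMap.sub_apply, Module.End.one_apply, map_sub]

theorem comm_apply {ρ : P →* Module.End (ZMod ℓ) X} {g : Module.End (ZMod ℓ) X}
    (h : ∀ p, g * ρ p = ρ p * g) (p : P) (x : X) : g (ρ p x) = ρ p (g x) := by
  have h1 := LinearMap.congr_fun (h p) x
  exact h1

theorem mem_range {ρ : P →* Module.End (ZMod ℓ) X} {g : Module.End (ZMod ℓ) X}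
    (h : ∀ p, g * ρ p = ρ p * g) (p : P) (μ : X →ₗ[ZMod ℓ] ZMod ℓ)
    (hμ : μ ∈ LinearMap.range (T g)) : μ ∘ₗ ρ p ∈ LinearMap.range (T g) := by
  obtain ⟨ν, rfl⟩ := hμ
  refine ⟨ν ∘ₗ ρ p, ?_⟩
  apply LinearMap.ext
  intro x
  rw [T_apply, LinearMap.comp_apply, LinearMap.comp_apply, LinearMap.comp_apply, T_apply,
    comm_apply h]

/-- the action of the group on the range -/
@[instance_reducible] noncomputable def act (ρ : P →* Module.End (ZMod ℓ) X) (g : Module.End (ZMod ℓ) X)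
    (h : ∀ p, g * ρ p = ρ p * g) : MulAction P (LinearMap.range (T g)) where
  smul p μ := ⟨μ.1 ∘ₗ ρ p⁻¹, mem_range h p⁻¹ μ.1 μ.2⟩
  one_smul μ := by
    apply Subtype.ext
    change μ.1 ∘ₗ ρ (1 : P)⁻¹ = μ.1
    rw [inv_one, map_one]
    rfl
  mul_smul p q μ := by
    apply Subtype.ext
    change μ.1 ∘ₗ ρ (p * q)⁻¹ = (μ.1 ∘ₗ ρ q⁻¹) ∘ₗ ρ p⁻¹
    rw [mul_inv_rev, map_mul]
    rfl

theorem pow_comp (g : Module.End (ZMod ℓ) X) (μ : X →ₗ[ZMod ℓ] ZMod ℓ)
    (h : ∀ x, T g (T g μ) x = 0) (k : ℕ) (x : X) :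
    μ ((g ^ k) x) = μ x + k * T g μ x := by
  induction k generalizing x with
  | zero => simp
  | succ k ih =>
    have h1 : (g ^ (k + 1)) x = (g ^ k) (g x) := by
      rw [pow_succ]
      rfl
    have h2 : μ (g x) = μ x + T g μ x := by
      rw [T_apply]
      ring
    have h3 : T g μ (g x) = T g μ x := by
      have h4 := h x
      rw [T_apply g (T g μ) x] at h4
      exact sub_eq_zero.1 h4
    rw [h1, ih (g x), h2, h3]
    push_cast
    ring

theorem main [Finite X] [Finite P] (hP : IsPGroup ℓ P) (ρ : P →* Module.End (ZMod ℓ) X)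
    (g : Module.End (ZMod ℓ) X) (r : ℕ) (hr : r.Coprime ℓ) (hgr : g ^ r = 1)
    (hc : ∀ p, g * ρ p = ρ p * g)
    (hs : ∀ x : X, g x - x ∈
      Submodule.span (ZMod ℓ) {z | ∃ (p : P) (y : X), z = ρ p y - y}) : g = 1 := by
  by_contra hg
  -- a non-zero element of the range
  obtain ⟨x, hx⟩ : ∃ x, g x - x ≠ 0 := by
    by_contra h
    push Not at h
    apply hg
    apply LinearMap.ext
    intro x
    rw [Module.End.one_apply]
    exact sub_eq_zero.1 (h x)
  obtain ⟨μ, hμ⟩ : ∃ μ : Module.Dual (ZMod ℓ) X, μ (g x - x) ≠ 0 := by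
    by_contra h
    push Not at h
    exact hx ((Module.forall_dual_apply_eq_zero_iff (ZMod ℓ) (g x - x)).1 h)
  have hfin : Finite (X →ₗ[ZMod ℓ] ZMod ℓ) :=
    Finite.of_injective (fun f : X →ₗ[ZMod ℓ] ZMod ℓ => (f : X → ZMod ℓ)) DFunLike.coe_injective
  obtain ⟨e, he⟩ : ∃ e : LinearMap.range (T g), e ≠ 0 := by
    refine ⟨⟨T g μ, μ, rfl⟩, ?_⟩
    intro h
    have h1 : T g μ = 0 := congrArg Subtype.val h
    have h2 := LinearMap.congr_fun h1 x
    rw [T_apply, ← map_sub] at h2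
    exact hμ h2
  have hcard : ℓ ∣ Nat.card (LinearMap.range (T g)) := by
    have h1 : addOrderOf e ∣ ℓ := by
      rw [addOrderOf_dvd_iff_nsmul_eq_zero, ← Nat.cast_smul_eq_nsmul (ZMod ℓ), ZMod.natCast_self,
        zero_smul]
    have h2 : addOrderOf e = ℓ := by
      rcases (Nat.dvd_prime (Fact.out : ℓ.Prime)).1 h1 with h3 | h3
      · exact absurd (AddMonoid.addOrderOf_eq_one_iff.1 h3) he
      · exact h3
    exact (dvd_of_eq h2.symm).trans (addOrderOf_dvd_natCard e)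
  let _ := act ρ g hc
  obtain ⟨b, hb, hb0⟩ := hP.exists_fixed_point_of_prime_dvd_card_of_fixed_point
    (LinearMap.range (T g)) hcard (a := 0) (by
      intro p
      apply Subtype.ext
      change (0 : X →ₗ[ZMod ℓ] ZMod ℓ) ∘ₗ ρ p⁻¹ = 0
      exact LinearMap.zero_comp _)
  obtain ⟨lam, ν, hν⟩ := b
  -- `lam` is fixed
  have hfix : ∀ (p : P) (y : X), lam (ρ p y) = lam y := by
    intro p y
    have h1 := hb p⁻¹
    have h2 : lam ∘ₗ ρ (p⁻¹)⁻¹ = lam := congrArg Subtype.val h1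
    rw [inv_inv] at h2
    exact LinearMap.congr_fun h2 y
  have hker : ∀ x, lam (g x - x) = 0 := by
    intro x
    have h1 : Submodule.span (ZMod ℓ) {z | ∃ (p : P) (y : X), z = ρ p y - y} ≤
        LinearMap.ker lam := by
      rw [Submodule.span_le]
      rintro _ ⟨p, y, rfl⟩
      change lam (ρ p y - y) = 0
      rw [map_sub, hfix, sub_self]
    exact h1 (hs x)
  have hTT : ∀ x, T g (T g ν) x = 0 := by
    intro x
    rw [hν, T_apply, ← map_sub]
    exact hker x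
  have hlam : lam = 0 := by
    apply LinearMap.ext
    intro x
    have h1 := pow_comp g ν hTT r x
    rw [hgr, Module.End.one_apply, hν] at h1
    have h2 : (r : ZMod ℓ) * lam x = 0 := by
      have h3 : ν x = ν x + (r : ZMod ℓ) * lam x := h1
      exact (left_eq_add.1 h3)
    have h3 : (r : ZMod ℓ) ≠ 0 := by
      intro h4
      have h5 : ℓ ∣ r := (ZMod.natCast_eq_zero_iff r ℓ).1 h4
      have h6 : ℓ ∣ 1 := by
        rw [← hr]
        exact Nat.dvd_gcd h5 (dvd_refl ℓ)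
      exact (Fact.out : ℓ.Prime).one_lt.ne' (Nat.dvd_one.1 h6)
    rcases mul_eq_zero.1 h2 with h4 | h4
    · exact absurd h4 h3
    · rw [h4]
      rfl
  apply hb0
  apply Subtype.ext
  exact hlam.symm

end COPN

theorem t_COP : S_COP := by
  intro ℓ _ X _ _ _ P _ _ hP ρ g r hr hgr hc hs
  exact COPN.main hP ρ g r hr hgr hc hs

end Pool.Agent.H365.TF
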